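import Pool.Agent.Lib.MP_dc6d97_lcG61.Expect
import Pool.Agent.Lib.MP_dc6d97_lc.KT2
import Pool.Agent.Lib.MP_dc6d97_lc.Upper

/-!
# MP_dc6d97_lc: randomization does not help for on-line path coloring on a line, on any family of
request sequences which is closed under prefixes, translations and juxtaposition

For every such family `F` and every number `c` of colors the following are equivalent: a
deterministic on-line algorithm uses at most `c` colors on all request sequences in `F`; the expected
number of colors of a randomized one is at most some `B < c + 1` on all of them; a randomized one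
uses at most `c` colors with a probability bounded away from `0` on all of them. The request
sequences of load at most `L` are such a family, and so are those among them whose lengths lie in a
given set. For load at most `L` the three conditions hold if and only if `3 * L ≤ c + 2`.
-/

namespace Pool.Agent.Results.MP_dc6d97_lc.FamilyDerandomization

open PathCol PathColG MeasureTheory

theorem result :
    (∀ F : List (ℕ × ℕ) → Prop, Family F → ∀ c : ℕ, [
      ∃ a : List (ℕ × ℕ) → ℕ, Proper a ∧ ∀ σ, F σ → used a σ ≤ c,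
      ∃ B : ℝ, B < c + 1 ∧ ∃ (Ω : Type) (_ : MeasurableSpace Ω) (μ : Measure Ω)
        (A : List (ℕ × ℕ) → Ω → ℕ), IsProbabilityMeasure μ ∧ (∀ s, Measurable (A s)) ∧
          (∀ ω, Proper fun s => A s ω) ∧
          ∀ σ, F σ → ∫ ω, (used (fun s => A s ω) σ : ℝ) ∂μ ≤ B,
      ∃ ε : ℝ, 0 < ε ∧ ∃ (Ω : Type) (_ : MeasurableSpace Ω) (μ : Measure Ω)
        (A : List (ℕ × ℕ) → Ω → ℕ), IsProbabilityMeasure μ ∧ (∀ s, Measurable (A s)) ∧
          (∀ ω, Proper fun s => A s ω) ∧
          ∀ σ, F σ → ε ≤ μ.real {ω | used (fun s => A s ω) σ ≤ c}].TFAE) ∧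
    (∀ L : ℕ, Family (Load L)) ∧
    (∀ (L : ℕ) (D : Set ℕ), Family fun σ => Load L σ ∧ ∀ p ∈ σ, p.2 ∈ D) ∧
    ∀ L c : ℕ,
      (∃ a : List (ℕ × ℕ) → ℕ, Proper a ∧ ∀ σ, Load L σ → used a σ ≤ c) ↔ 3 * L ≤ c + 2 := by
  refine ⟨family_tfae, family_load, fun L D => (family_load L).lengths D, fun L c => ⟨?_, ?_⟩⟩
  · rintro ⟨a, ha, h⟩
    rcases Nat.eq_zero_or_pos L with rfl | hL
    · omega
    · obtain ⟨σ, hσ, hu⟩ := kierstead_trotter ha hL
      have := h σ hσ
      omega
  · intro hc
    obtain ⟨a, ha, h⟩ := kierstead_trotter_upper L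
    exact ⟨a, ha, fun σ hσ => (h σ hσ).trans (by omega)⟩

end Pool.Agent.Results.MP_dc6d97_lc.FamilyDerandomization
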